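import Pool.Agent.Lib_helper5.GC34.Circ

/-!
# Exchange of the circle functional and the double integral
-/

open scoped BigOperators Topology Interval
open MeasureTheory Set Filter

namespace Pool.Agent.Lib_helper19.GC34

open Pool.Agent.GC34

/-- unit sequences -/
noncomputable def ek (k : ℕ) : ℕ → ℝ := fun j => if j = k then 1 else 0

theorem ek_bd (k j : ℕ) : |ek k j| ≤ 1 := by
  unfold ek
  split_ifs <;> simp

theorem circL_ek (k : ℕ) (r θ : ℝ) : circL (ek k) r θ = ((cz r θ)⁻¹) ^ k := by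
  unfold circL ek
  rw [tsum_eq_single k]
  · simp
  · intro j hj
    simp [hj]

theorem norm_cell_ek_le {r : ℝ} (hr : 1 < r) (k : ℕ) {f : ℂ → ℂ} {b : ℝ}
    (hb : ∀ θ, ‖f (cz r θ)‖ ≤ b) : ‖cell (ek k) r f‖ ≤ b * (r⁻¹) ^ k := by
  have hr0 : 0 < r := by linarith
  have hpi : (0 : ℝ) < 2 * Real.pi := by positivity
  have hb0 : 0 ≤ b := (norm_nonneg _).trans (hb 0)
  unfold cell
  have h1 : ‖∫ θ in Ioc (0 : ℝ) (2 * Real.pi), f (cz r θ) * circL (ek k) r θ‖ ≤
      (b * (r⁻¹) ^ k) * (volume.real (Ioc (0 : ℝ) (2 * Real.pi))) := by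
    apply norm_setIntegral_le_of_norm_le_const (by rw [Real.volume_Ioc]; exact ENNReal.ofReal_lt_top)
    intro θ _
    rw [norm_mul, circL_ek, norm_pow, norm_inv, norm_cz hr0]
    exact mul_le_mul_of_nonneg_right (hb θ) (by positivity)
  rw [norm_mul]
  have h2 : ‖((2 * Real.pi : ℂ))⁻¹‖ = (2 * Real.pi)⁻¹ := by
    rw [norm_inv]
    congr 1
    have : (2 * Real.pi : ℂ) = ((2 * Real.pi : ℝ) : ℂ) := by push_cast; ring
    rw [this, Complex.norm_real, Real.norm_eq_abs, abs_of_pos hpi]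
  rw [h2]
  have h3 : volume.real (Ioc (0 : ℝ) (2 * Real.pi)) = 2 * Real.pi := by
    rw [Measure.real, Real.volume_Ioc, ENNReal.toReal_ofReal (by linarith), sub_zero]
  rw [h3] at h1
  calc (2 * Real.pi)⁻¹ * _ ≤ (2 * Real.pi)⁻¹ * (b * (r⁻¹) ^ k * (2 * Real.pi)) := by gcongr
    _ = _ := by field_simp

/-- `cell μ = ∑ μ k cell (e k)` -/
theorem hasSum_cell_mu {μ : ℕ → ℝ} {r K : ℝ} (hr : 1 < r) (hK : ∀ k, |μ k| ≤ K) {f : ℂ → ℂ}
    {b : ℝ} (hf : Continuous fun θ => f (cz r θ)) (hb : ∀ θ, ‖f (cz r θ)‖ ≤ b) :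
    HasSum (fun k => (μ k : ℂ) * cell (ek k) r f) (cell μ r f) := by
  have hr0 : 0 < r := by linarith
  have hb0 : 0 ≤ b := (norm_nonneg _).trans (hb 0)
  have hbd : ∀ k θ, ‖f (cz r θ) * ((μ k : ℂ) * ((cz r θ)⁻¹) ^ k)‖ ≤ b * (K * (r⁻¹) ^ k) := by
    intro k θ
    rw [norm_mul]
    exact mul_le_mul (hb θ) (norm_term_le hr hK θ k) (norm_nonneg _) hb0
  have hc : ∀ k : ℕ, Continuous fun θ => f (cz r θ) * ((μ k : ℂ) * ((cz r θ)⁻¹) ^ k) := by
    intro k
    have := (continuous_cz r).inv₀ (cz_ne_zero hr0)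
    exact hf.mul (continuous_const.mul (this.pow k))
  have h1 : HasSum (fun k : ℕ => ∫ θ in Ioc (0 : ℝ) (2 * Real.pi),
      f (cz r θ) * ((μ k : ℂ) * ((cz r θ)⁻¹) ^ k))
      (∫ θ in Ioc (0 : ℝ) (2 * Real.pi), ∑' k : ℕ,
        f (cz r θ) * ((μ k : ℂ) * ((cz r θ)⁻¹) ^ k)) := by
    apply hasSum_integral_of_summable_integral_norm
    · intro k
      exact integral_bdd_circle (hc k)
    · have h2 : Summable fun k : ℕ => ∫ _θ in Ioc (0 : ℝ) (2 * Real.pi),
          b * (K * (r⁻¹) ^ k) := by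
        simp only [setIntegral_const]
        exact ((summable_geom (K := K) hr).mul_left b).const_smul _
      apply Summable.of_nonneg_of_le _ _ h2
      · intro k
        exact integral_nonneg fun _ => norm_nonneg _
      · intro k
        apply integral_mono_of_nonneg
        · exact Eventually.of_forall fun _ => norm_nonneg _
        · exact (continuous_const.continuousOn.integrableOn_Icc (a := (0 : ℝ))
            (b := 2 * Real.pi)).mono_set Ioc_subset_Icc_self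
        · exact Eventually.of_forall fun θ => hbd k θ
  have h2 : ∀ θ : ℝ, (∑' k : ℕ, f (cz r θ) * ((μ k : ℂ) * ((cz r θ)⁻¹) ^ k)) =
      f (cz r θ) * circL μ r θ := by
    intro θ
    unfold circL
    rw [tsum_mul_left]
  simp_rw [h2] at h1
  have h3 := h1.mul_left ((2 * Real.pi : ℂ)⁻¹)
  have e : ∀ k : ℕ, (2 * Real.pi : ℂ)⁻¹ * ∫ θ in Ioc (0 : ℝ) (2 * Real.pi),
      f (cz r θ) * ((μ k : ℂ) * ((cz r θ)⁻¹) ^ k) = (μ k : ℂ) * cell (ek k) r f := by
    intro k
    unfold cell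
    simp_rw [circL_ek]
    have : ∀ θ : ℝ, f (cz r θ) * ((μ k : ℂ) * ((cz r θ)⁻¹) ^ k) =
        (μ k : ℂ) * (f (cz r θ) * ((cz r θ)⁻¹) ^ k) := fun θ => by ring
    simp_rw [this]
    rw [integral_const_mul]
    ring
  simp only [e] at h3
  exact h3

/-- evaluation at a real point of `[-1, 1]` -/
theorem cell_eval {r R : ℝ} (hr : 1 < r) (hrR : r < R) {f : ℂ → ℂ}
    (hd : DifferentiableOn ℂ f (Metric.closedBall 0 R)) {x : ℝ} (hx : |x| ≤ 1) :
    cell (fun k => x ^ k) r f = f x := by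
  have hr0 : 0 < r := by linarith
  have hR0 : 0 < R := by linarith
  set R' : NNReal := ⟨R, hR0.le⟩ with hR'
  set r' : NNReal := ⟨r, hr0.le⟩ with hr'
  have hp := hd.hasFPowerSeriesOnBall (R := R') (c := 0) (by exact_mod_cast hR0)
  set P := cauchyPowerSeries f 0 (R' : ℝ) with hP
  have hrad : (R' : ENNReal) ≤ P.radius := hp.r_le
  have hlt : (r' : ENNReal) < P.radius := by
    refine lt_of_lt_of_le ?_ hrad
    exact_mod_cast hrR
  have hsum : Summable fun n => ‖P n‖ * (r' : ℝ) ^ n := P.summable_norm_mul_pow hlt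
  have hco : ∀ z : ℂ, ‖z‖ < R → HasSum (fun n => P.coeff n * z ^ n) (f z) := by
    intro z hz
    have h1 : z ∈ Metric.eball (0 : ℂ) (R' : ENNReal) := by
      rw [Metric.mem_eball, edist_zero_right]
      rw [← ofReal_norm, ← ENNReal.ofReal_coe_nnreal]
      exact (ENNReal.ofReal_lt_ofReal_iff hR0).2 hz
    have h2 := hp.hasSum h1
    rw [zero_add] at h2
    simp only [FormalMultilinearSeries.apply_eq_pow_smul_coeff, smul_eq_mul] at h2
    simpa only [mul_comm] using h2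
  have hs : Summable fun k => ‖P.coeff k‖ * r ^ k := by
    refine Summable.of_nonneg_of_le (fun k => by positivity) (fun k => ?_) hsum
    have : ‖P.coeff k‖ ≤ ‖P k‖ := by
      rw [FormalMultilinearSeries.norm_apply_eq_norm_coef]
    exact mul_le_mul_of_nonneg_right this (by positivity)
  have hxk : ∀ k : ℕ, |x ^ k| ≤ 1 := by
    intro k
    rw [abs_pow]
    exact pow_le_one₀ (abs_nonneg _) hx
  have h1 := cell_eq_tsum hr hxk hs (f := f) (fun θ => hco _ (by rw [norm_cz hr0]; exact hrR))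
  rw [h1]
  have h2 := (hco (x : ℂ) (by
    rw [Complex.norm_real, Real.norm_eq_abs]
    linarith)).tsum_eq
  rw [← h2]
  refine tsum_congr fun k => ?_
  push_cast
  ring

/-- uniqueness of the coefficients on `[-1, 1]` -/
theorem coeff_unique {d : ℕ → ℝ} (hd : Summable fun k => |d k|)
    (h : ∀ x : ℝ, |x| ≤ 1 → ∑' k : ℕ, d k * x ^ k = 0) (k : ℕ) : d k = 0 := by
  induction k using Nat.strong_induction_on with
  | _ k ih =>
    by_contra hk
    have hpos : 0 < |d k| := abs_pos.2 hk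
    set S : ℝ := ∑' j, |d j| with hS
    have hS0 : 0 ≤ S := tsum_nonneg fun j => abs_nonneg _
    set x : ℝ := min 1 (|d k| / (2 * (S + 1))) with hx
    have hx0 : 0 < x := lt_min one_pos (by positivity)
    have hx1 : x ≤ 1 := min_le_left _ _
    have hxa : |x| ≤ 1 := by rw [abs_of_pos hx0]; exact hx1
    have hxk : ∀ j : ℕ, |x ^ j| ≤ 1 := by
      intro j
      rw [abs_pow]
      exact pow_le_one₀ (abs_nonneg _) hxa
    have hs : Summable fun j : ℕ => d j * x ^ j := by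
      apply Summable.of_norm_bounded hd
      intro j
      rw [norm_mul, Real.norm_eq_abs, Real.norm_eq_abs]
      exact mul_le_of_le_one_right (abs_nonneg _) (hxk j)
    have h1 := h x hxa
    rw [← hs.sum_add_tsum_nat_add (k + 1), Finset.sum_range_succ,
      Finset.sum_eq_zero (fun j hj => by rw [ih j (Finset.mem_range.1 hj), zero_mul]), zero_add] at h1
    have h2 : ∑' j : ℕ, d (j + (k + 1)) * x ^ (j + (k + 1)) =
        x ^ (k + 1) * ∑' j : ℕ, d (j + (k + 1)) * x ^ j := by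
      rw [← tsum_mul_left]
      refine tsum_congr fun j => ?_
      rw [pow_add x j (k + 1)]
      ring
    rw [h2] at h1
    have hs' : Summable fun j : ℕ => |d (j + (k + 1))| := (summable_nat_add_iff (k + 1)).2 hd
    have h3 : |∑' j : ℕ, d (j + (k + 1)) * x ^ j| ≤ S := by
      have h4 : |∑' j : ℕ, d (j + (k + 1)) * x ^ j| ≤ ∑' j : ℕ, |d (j + (k + 1))| := by
        rw [← Real.norm_eq_abs]
        apply tsum_of_norm_bounded hs'.hasSum
        intro j
        rw [norm_mul, Real.norm_eq_abs, Real.norm_eq_abs]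
        exact mul_le_of_le_one_right (abs_nonneg _) (hxk j)
      refine h4.trans ?_
      rw [hS, ← hd.sum_add_tsum_nat_add (k + 1)]
      have : 0 ≤ ∑ i ∈ Finset.range (k + 1), |d i| := Finset.sum_nonneg fun _ _ => abs_nonneg _
      linarith
    have h5 : d k = -(x * ∑' j : ℕ, d (j + (k + 1)) * x ^ j) := by
      have h6 : x ^ k * (d k + x * ∑' j : ℕ, d (j + (k + 1)) * x ^ j) = 0 := by
        rw [pow_succ] at h1
        linarith
      have h7 := (mul_eq_zero.1 h6).resolve_left (by positivity)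
      linarith
    have h8 : |d k| ≤ x * S := by
      rw [h5, abs_neg, abs_mul, abs_of_pos hx0]
      exact mul_le_mul_of_nonneg_left h3 hx0.le
    have h9 : x * S ≤ |d k| / (2 * (S + 1)) * S := mul_le_mul_of_nonneg_right (min_le_right _ _) hS0
    have h10 : |d k| / (2 * (S + 1)) * S < |d k| := by
      rw [div_mul_eq_mul_div, div_lt_iff₀ (by positivity)]
      nlinarith
    linarith

/-- integrability of the weight -/
theorem integrable_weight {p : ℝ} (h3 : 3 < p) (h4 : p < 4) :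
    IntegrableOn (fun σ : ℝ => σ ^ (p - 2) * min (1 / σ ^ 2) (1 / σ ^ 3)) (Ioi 0) := by
  have hm : Measurable fun σ : ℝ => σ ^ (p - 2) * min (1 / σ ^ 2) (1 / σ ^ 3) := by
    fun_prop
  rw [← Ioc_union_Ioi_eq_Ioi (zero_le_one (α := ℝ))]
  apply IntegrableOn.union
  · have h1 : IntegrableOn (fun σ : ℝ => σ ^ (p - 4)) (Ioc 0 1) := by
      rw [← intervalIntegrable_iff_integrableOn_Ioc_of_le zero_le_one]
      exact intervalIntegral.intervalIntegrable_rpow' (by linarith)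
    refine Integrable.mono' h1 hm.aestronglyMeasurable ?_
    refine (ae_restrict_iff' measurableSet_Ioc).2 (Eventually.of_forall fun σ hσ => ?_)
    have h0 : 0 < σ := hσ.1
    rw [norm_mul, Real.norm_of_nonneg (by positivity), Real.norm_of_nonneg (by positivity)]
    calc σ ^ (p - 2) * min (1 / σ ^ 2) (1 / σ ^ 3) ≤ σ ^ (p - 2) * (1 / σ ^ 2) :=
          mul_le_mul_of_nonneg_left (min_le_left _ _) (by positivity)
      _ = σ ^ (p - 4) := by
          rw [show p - 2 = (p - 4) + (2 : ℕ) by push_cast; ring, Real.rpow_add_natCast h0.ne']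
          field_simp
  · have h1 : IntegrableOn (fun σ : ℝ => σ ^ (p - 5)) (Ioi 1) :=
      integrableOn_Ioi_rpow_of_lt (by linarith) one_pos
    refine Integrable.mono' h1 hm.aestronglyMeasurable ?_
    refine (ae_restrict_iff' measurableSet_Ioi).2 (Eventually.of_forall fun σ hσ => ?_)
    have h0 : 0 < σ := one_pos.trans hσ
    rw [norm_mul, Real.norm_of_nonneg (by positivity), Real.norm_of_nonneg (by positivity)]
    calc σ ^ (p - 2) * min (1 / σ ^ 2) (1 / σ ^ 3) ≤ σ ^ (p - 2) * (1 / σ ^ 3) :=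
          mul_le_mul_of_nonneg_left (min_le_right _ _) (by positivity)
      _ = σ ^ (p - 5) := by
          rw [show p - 2 = (p - 5) + (3 : ℕ) by push_cast; ring, Real.rpow_add_natCast h0.ne']
          field_simp

/-- the domain of the parameters `(t, σ)` -/
def Dom : Set (ℝ × ℝ) := Ioo (0 : ℝ) 1 ×ˢ Ioi (0 : ℝ)

theorem measurableSet_Dom : MeasurableSet Dom := measurableSet_Ioo.prod measurableSet_Ioi

/-- the weighted function, extended by zero -/
noncomputable def Fw (F : ℝ → ℝ → ℂ → ℂ) (p c : ℝ) (s : ℝ × ℝ) (z : ℂ) : ℂ :=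
  open Classical in
  if s ∈ Dom then ((2 * p / s.1 * (c * s.2 ^ (p - 2)) : ℝ) : ℂ) * F s.1 s.2 z else 0

/-- the bound of the weighted function -/
noncomputable def gw (p c K : ℝ) (s : ℝ × ℝ) : ℝ :=
  open Classical in
  if s ∈ Dom then (2 * p * |c| * K * s.1) * (s.2 ^ (p - 2) * min (1 / s.2 ^ 2) (1 / s.2 ^ 3)) else 0

theorem restrict_Dom : (volume : Measure (ℝ × ℝ)).restrict Dom =
    (volume.restrict (Ioo (0 : ℝ) 1)).prod (volume.restrict (Ioi (0 : ℝ))) := by
  rw [Measure.prod_restrict]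
  rfl

theorem integrable_gw {p : ℝ} (h3 : 3 < p) (h4 : p < 4) (c K : ℝ) :
    Integrable (gw p c K) ((volume : Measure (ℝ × ℝ)).restrict Dom) := by
  have h1 : Integrable (fun s : ℝ × ℝ => (2 * p * |c| * K * s.1) *
      (s.2 ^ (p - 2) * min (1 / s.2 ^ 2) (1 / s.2 ^ 3)))
      ((volume.restrict (Ioo (0 : ℝ) 1)).prod (volume.restrict (Ioi (0 : ℝ)))) := by
    apply Integrable.mul_prod (f := fun t : ℝ => 2 * p * |c| * K * t)
      (g := fun σ : ℝ => σ ^ (p - 2) * min (1 / σ ^ 2) (1 / σ ^ 3))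
    · have : IntegrableOn (fun t : ℝ => 2 * p * |c| * K * t) (Icc 0 1) :=
        (continuous_const.mul continuous_id).continuousOn.integrableOn_Icc
      exact this.mono_set Ioo_subset_Icc_self
    · exact integrable_weight h3 h4
  rw [← restrict_Dom] at h1
  refine h1.congr ?_
  refine (ae_restrict_iff' measurableSet_Dom).2 (Eventually.of_forall fun s hs => ?_)
  simp only [gw, if_pos hs]

theorem norm_Fw_le {F : ℝ → ℝ → ℂ → ℂ} {p R r K c : ℝ} (h3 : 3 < p) (hr : 1 < r) (hrR : r < R)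
    (hb : ∀ t ∈ Ioc (0 : ℝ) 1, ∀ σ : ℝ, 0 < σ → ∀ z : ℂ, ‖z‖ ≤ R →
      ‖F t σ z‖ ≤ K * t ^ 2 * min (1 / σ ^ 2) (1 / σ ^ 3)) (s : ℝ × ℝ) (θ : ℝ) :
    ‖Fw F p c s (cz r θ)‖ ≤ gw p c K s := by
  by_cases hs : s ∈ Dom
  · have ht : s.1 ∈ Ioo (0 : ℝ) 1 := hs.1
    have hσ : 0 < s.2 := hs.2
    have h0 : 0 < s.1 := ht.1
    simp only [Fw, gw, if_pos hs]
    rw [norm_mul, Complex.norm_real, Real.norm_eq_abs]
    have h5 := hb s.1 ⟨ht.1, ht.2.le⟩ s.2 hσ (cz r θ) (by
      rw [norm_cz (by linarith)]; exact hrR.le)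
    have h6 : |2 * p / s.1 * (c * s.2 ^ (p - 2))| = 2 * p / s.1 * (|c| * s.2 ^ (p - 2)) := by
      rw [abs_mul, abs_mul, abs_of_pos (by positivity : 0 < 2 * p / s.1),
        abs_of_pos (by positivity : 0 < s.2 ^ (p - 2))]
    rw [h6]
    calc 2 * p / s.1 * (|c| * s.2 ^ (p - 2)) * ‖F s.1 s.2 (cz r θ)‖
        ≤ 2 * p / s.1 * (|c| * s.2 ^ (p - 2)) *
          (K * s.1 ^ 2 * min (1 / s.2 ^ 2) (1 / s.2 ^ 3)) :=
        mul_le_mul_of_nonneg_left h5 (by positivity)
      _ = _ := by field_simp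
  · simp only [Fw, gw, if_neg hs, norm_zero, le_refl]

theorem continuous_Fw {F : ℝ → ℝ → ℂ → ℂ} {p R r : ℝ} (c : ℝ) (hr : 1 < r) (hrR : r < R)
    (hd : ∀ t ∈ Ioc (0 : ℝ) 1, ∀ σ : ℝ, 0 < σ →
      DifferentiableOn ℂ (F t σ) (Metric.closedBall 0 R)) (s : ℝ × ℝ) :
    Continuous fun θ => Fw F p c s (cz r θ) := by
  by_cases hs : s ∈ Dom
  · simp only [Fw, if_pos hs]
    apply continuous_const.mul
    have h1 := (hd s.1 ⟨hs.1.1, hs.1.2.le⟩ s.2 hs.2).continuousOn
    apply h1.comp_continuous (continuous_cz r)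
    intro θ
    rw [mem_closedBall_zero_iff, norm_cz (by linarith)]
    exact hrR.le
  · simp only [Fw, if_neg hs]
    exact continuous_const

theorem aesm_Fw {F : ℝ → ℝ → ℂ → ℂ} {p R r c : ℝ} (hr : 1 < r) (hrR : r < R)
    (hc : ContinuousOn (fun x : ℝ × ℝ × ℂ => F x.1 x.2.1 x.2.2)
      (Ioc 0 1 ×ˢ Ioi 0 ×ˢ Metric.closedBall 0 R)) :
    AEStronglyMeasurable (fun x : (ℝ × ℝ) × ℝ => Fw F p c x.1 (cz r x.2))
      (((volume : Measure (ℝ × ℝ)).restrict Dom).prod
        (volume.restrict (Ioc (0 : ℝ) (2 * Real.pi)))) := by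
  rw [Measure.prod_restrict]
  have hm : MeasurableSet (Dom ×ˢ Ioc (0 : ℝ) (2 * Real.pi)) :=
    measurableSet_Dom.prod measurableSet_Ioc
  have h1 : ContinuousOn (fun x : (ℝ × ℝ) × ℝ =>
      ((2 * p / x.1.1 * (c * x.1.2 ^ (p - 2)) : ℝ) : ℂ) * F x.1.1 x.1.2 (cz r x.2))
      (Dom ×ˢ Ioc (0 : ℝ) (2 * Real.pi)) := by
    apply ContinuousOn.mul
    · apply Complex.continuous_ofReal.comp_continuousOn
      apply ContinuousOn.mul
      · apply ContinuousOn.div continuousOn_const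
        · exact (continuous_fst.comp continuous_fst).continuousOn
        · intro x hx
          exact ne_of_gt hx.1.1.1
      · apply ContinuousOn.mul continuousOn_const
        apply ContinuousOn.rpow_const
        · exact (continuous_snd.comp continuous_fst).continuousOn
        · intro x hx
          exact Or.inl (ne_of_gt hx.1.2)
    · have h2 : Continuous fun x : (ℝ × ℝ) × ℝ => ((x.1.1, x.1.2, cz r x.2) : ℝ × ℝ × ℂ) :=
        (continuous_fst.comp continuous_fst).prodMk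
          ((continuous_snd.comp continuous_fst).prodMk ((continuous_cz r).comp continuous_snd))
      exact hc.comp h2.continuousOn (fun x hx => by
        refine ⟨⟨hx.1.1.1, hx.1.1.2.le⟩, hx.1.2, ?_⟩
        rw [mem_closedBall_zero_iff, norm_cz (by linarith)]
        exact hrR.le)
  refine (h1.aestronglyMeasurable hm).congr ?_
  refine (ae_restrict_iff' hm).2 (Eventually.of_forall fun x hx => ?_)
  simp only [Fw, if_pos hx.1]

theorem cell_Fw {F : ℝ → ℝ → ℂ → ℂ} {p r c : ℝ} (μ : ℕ → ℝ) {s : ℝ × ℝ} (hs : s ∈ Dom) :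
    (cell μ r (Fw F p c s)).re =
      2 * p / s.1 * (c * (s.2 ^ (p - 2) * (cell μ r (F s.1 s.2)).re)) := by
  have h1 : Fw F p c s = fun z => ((2 * p / s.1 * (c * s.2 ^ (p - 2)) : ℝ) : ℂ) * F s.1 s.2 z := by
    ext z
    simp only [Fw, if_pos hs]
  rw [h1, cell_const_mul, Complex.re_ofReal_mul]
  ring

/-- the iterated integral -/
noncomputable def Lam (F : ℝ → ℝ → ℂ → ℂ) (p r c : ℝ) (μ : ℕ → ℝ) : ℝ :=
  ∫ t in Ioo (0 : ℝ) 1, 2 * p / t * (c * ∫ σ in Ioi (0 : ℝ), σ ^ (p - 2) * (cell μ r (F t σ)).re)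

theorem lam_facts {F : ℝ → ℝ → ℂ → ℂ} {p R r K : ℝ} (h3 : 3 < p) (h4 : p < 4) (hr : 1 < r)
    (hrR : r < R)
    (hc : ContinuousOn (fun x : ℝ × ℝ × ℂ => F x.1 x.2.1 x.2.2)
      (Ioc 0 1 ×ˢ Ioi 0 ×ˢ Metric.closedBall 0 R))
    (hb : ∀ t ∈ Ioc (0 : ℝ) 1, ∀ σ : ℝ, 0 < σ → ∀ z : ℂ, ‖z‖ ≤ R →
      ‖F t σ z‖ ≤ K * t ^ 2 * min (1 / σ ^ 2) (1 / σ ^ 3)) (c : ℝ)
    {μ : ℕ → ℝ} {K' : ℝ} (hK : ∀ k, |μ k| ≤ K') :
    Integrable (fun s => cell μ r (Fw F p c s)) ((volume : Measure (ℝ × ℝ)).restrict Dom) ∧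
    IntegrableOn (fun t : ℝ => 2 * p / t * (c * ∫ σ in Ioi (0 : ℝ), σ ^ (p - 2) *
      (cell μ r (F t σ)).re)) (Ioo 0 1) ∧
    (∫ s in Dom, cell μ r (Fw F p c s)).re = Lam F p r c μ := by
  have hI : Integrable (fun s => cell μ r (Fw F p c s))
      ((volume : Measure (ℝ × ℝ)).restrict Dom) :=
    (cell_integral hr hK (aesm_Fw hr hrR hc) (integrable_gw h3 h4 c K)
      (norm_Fw_le h3 hr hrR hb)).1
  have hre : Integrable (fun s => (cell μ r (Fw F p c s)).re)
      ((volume.restrict (Ioo (0 : ℝ) 1)).prod (volume.restrict (Ioi (0 : ℝ)))) := by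
    rw [← restrict_Dom]
    exact hI.re
  have hin : ∀ t ∈ Ioo (0 : ℝ) 1, (∫ σ in Ioi (0 : ℝ), (cell μ r (Fw F p c (t, σ))).re) =
      2 * p / t * (c * ∫ σ in Ioi (0 : ℝ), σ ^ (p - 2) * (cell μ r (F t σ)).re) := by
    intro t ht
    rw [← integral_const_mul, ← integral_const_mul]
    refine setIntegral_congr_fun measurableSet_Ioi fun σ hσ => ?_
    exact cell_Fw μ (s := (t, σ)) ⟨ht, hσ⟩
  refine ⟨hI, ?_, ?_⟩
  · refine hre.integral_prod_left.congr ?_
    exact (ae_restrict_iff' measurableSet_Ioo).2 (Eventually.of_forall fun t ht => hin t ht)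
  · have h5 : (∫ s in Dom, cell μ r (Fw F p c s)).re = ∫ s in Dom, (cell μ r (Fw F p c s)).re :=
      (integral_re hI).symm
    rw [h5, restrict_Dom, integral_prod _ hre]
    exact setIntegral_congr_fun measurableSet_Ioo fun t ht => hin t ht

/-- integrability in `σ` at fixed `t` -/
theorem slice_integrable {f : ℝ → ℂ → ℂ} {p R r K : ℝ} (h3 : 3 < p) (h4 : p < 4) (hr : 1 < r)
    (hrR : r < R)
    (hc : ContinuousOn (fun x : ℝ × ℂ => f x.1 x.2) (Ioi 0 ×ˢ Metric.closedBall 0 R))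
    (hb : ∀ σ : ℝ, 0 < σ → ∀ z : ℂ, ‖z‖ ≤ R → ‖f σ z‖ ≤ K * min (1 / σ ^ 2) (1 / σ ^ 3))
    {μ : ℕ → ℝ} {K' : ℝ} (hK : ∀ k, |μ k| ≤ K') :
    IntegrableOn (fun σ : ℝ => σ ^ (p - 2) * (cell μ r (f σ)).re) (Ioi 0) := by
  classical
  set fw : ℝ → ℂ → ℂ := fun σ z => if 0 < σ then ((σ ^ (p - 2) : ℝ) : ℂ) * f σ z else 0 with hfw
  set g : ℝ → ℝ := fun σ => if 0 < σ then K * (σ ^ (p - 2) * min (1 / σ ^ 2) (1 / σ ^ 3)) else 0
    with hg
  have hr0 : 0 < r := by linarith
  have hm : AEStronglyMeasurable (fun x : ℝ × ℝ => fw x.1 (cz r x.2))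
      ((volume.restrict (Ioi (0 : ℝ))).prod (volume.restrict (Ioc (0 : ℝ) (2 * Real.pi)))) := by
    rw [Measure.prod_restrict]
    have hms : MeasurableSet (Ioi (0 : ℝ) ×ˢ Ioc (0 : ℝ) (2 * Real.pi)) :=
      measurableSet_Ioi.prod measurableSet_Ioc
    have h1 : ContinuousOn (fun x : ℝ × ℝ => ((x.1 ^ (p - 2) : ℝ) : ℂ) * f x.1 (cz r x.2))
        (Ioi (0 : ℝ) ×ˢ Ioc (0 : ℝ) (2 * Real.pi)) := by
      apply ContinuousOn.mul
      · apply Complex.continuous_ofReal.comp_continuousOn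
        apply ContinuousOn.rpow_const continuous_fst.continuousOn
        intro x hx
        exact Or.inl (ne_of_gt hx.1)
      · have h2 : Continuous fun x : ℝ × ℝ => ((x.1, cz r x.2) : ℝ × ℂ) :=
          continuous_fst.prodMk ((continuous_cz r).comp continuous_snd)
        exact hc.comp h2.continuousOn (fun x hx => by
          refine ⟨hx.1, ?_⟩
          rw [mem_closedBall_zero_iff, norm_cz hr0]
          exact hrR.le)
    refine (h1.aestronglyMeasurable hms).congr ?_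
    refine (ae_restrict_iff' hms).2 (Eventually.of_forall fun x hx => ?_)
    have : (0 : ℝ) < x.1 := hx.1
    simp only [hfw, if_pos this]
  have hgi : Integrable g (volume.restrict (Ioi (0 : ℝ))) := by
    refine ((integrable_weight h3 h4).const_mul K).congr ?_
    refine (ae_restrict_iff' measurableSet_Ioi).2 (Eventually.of_forall fun σ hσ => ?_)
    have : (0 : ℝ) < σ := hσ
    simp only [hg, if_pos this]
  have hbd : ∀ σ θ, ‖fw σ (cz r θ)‖ ≤ g σ := by
    intro σ θ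
    by_cases h : 0 < σ
    · simp only [hfw, hg, if_pos h]
      rw [norm_mul, Complex.norm_real, Real.norm_of_nonneg (by positivity)]
      calc σ ^ (p - 2) * ‖f σ (cz r θ)‖ ≤ σ ^ (p - 2) * (K * min (1 / σ ^ 2) (1 / σ ^ 3)) :=
            mul_le_mul_of_nonneg_left (hb σ h _ (by rw [norm_cz hr0]; exact hrR.le)) (by positivity)
        _ = _ := by ring
    · simp only [hfw, hg, if_neg h, norm_zero, le_refl]
  have hI := (cell_integral hr hK hm hgi hbd).1.re
  refine hI.congr ?_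
  refine (ae_restrict_iff' measurableSet_Ioi).2 (Eventually.of_forall fun σ hσ => ?_)
  have h : (0 : ℝ) < σ := hσ
  have h1 : fw σ = fun z => ((σ ^ (p - 2) : ℝ) : ℂ) * f σ z := by
    ext z
    simp only [hfw, if_pos h]
  show (cell μ r (fw σ)).re = _
  rw [h1, cell_const_mul, Complex.re_ofReal_mul]

/-- `Lam μ = ∑ μ k g k` with `g` independent of `μ` -/
theorem hasSum_Lam {F : ℝ → ℝ → ℂ → ℂ} {p R r K : ℝ} (h3 : 3 < p) (h4 : p < 4) (hr : 1 < r)
    (hrR : r < R)
    (hd : ∀ t ∈ Ioc (0 : ℝ) 1, ∀ σ : ℝ, 0 < σ →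
      DifferentiableOn ℂ (F t σ) (Metric.closedBall 0 R))
    (hc : ContinuousOn (fun x : ℝ × ℝ × ℂ => F x.1 x.2.1 x.2.2)
      (Ioc 0 1 ×ˢ Ioi 0 ×ˢ Metric.closedBall 0 R))
    (hb : ∀ t ∈ Ioc (0 : ℝ) 1, ∀ σ : ℝ, 0 < σ → ∀ z : ℂ, ‖z‖ ≤ R →
      ‖F t σ z‖ ≤ K * t ^ 2 * min (1 / σ ^ 2) (1 / σ ^ 3)) (c : ℝ)
    {μ : ℕ → ℝ} {K' : ℝ} (hK : ∀ k, |μ k| ≤ K') :
    HasSum (fun k => μ k * (∫ s in Dom, cell (ek k) r (Fw F p c s)).re) (Lam F p r c μ) := by
  have hgi := integrable_gw h3 h4 c K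
  have h1 : HasSum (fun k : ℕ => ∫ s in Dom, (μ k : ℂ) * cell (ek k) r (Fw F p c s))
      (∫ s in Dom, ∑' k : ℕ, (μ k : ℂ) * cell (ek k) r (Fw F p c s)) := by
    apply hasSum_integral_of_summable_integral_norm
    · intro k
      exact (lam_facts h3 h4 hr hrR hc hb c (ek_bd k)).1.const_mul _
    · have h2 : Summable fun k : ℕ => (∫ s in Dom, gw p c K s) * (K' * (r⁻¹) ^ k) :=
        (summable_geom (K := K') hr).mul_left _
      apply Summable.of_nonneg_of_le _ _ h2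
      · intro k
        exact integral_nonneg fun _ => norm_nonneg _
      · intro k
        have e : (∫ s in Dom, gw p c K s) * (K' * (r⁻¹) ^ k) =
            ∫ s in Dom, K' * (gw p c K s * (r⁻¹) ^ k) := by
          rw [integral_const_mul, integral_mul_const]
          ring
        rw [e]
        apply integral_mono_of_nonneg
        · exact Eventually.of_forall fun _ => norm_nonneg _
        · exact (hgi.mul_const _).const_mul _
        · refine Eventually.of_forall fun s => ?_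
          show ‖(μ k : ℂ) * cell (ek k) r (Fw F p c s)‖ ≤ K' * (gw p c K s * (r⁻¹) ^ k)
          rw [norm_mul, Complex.norm_real, Real.norm_eq_abs]
          exact mul_le_mul (hK k) (norm_cell_ek_le hr k (norm_Fw_le h3 hr hrR hb s))
            (norm_nonneg _) ((abs_nonneg _).trans (hK k))
  have h2 : ∀ s, (∑' k : ℕ, (μ k : ℂ) * cell (ek k) r (Fw F p c s)) = cell μ r (Fw F p c s) :=
    fun s => (hasSum_cell_mu hr hK (continuous_Fw c hr hrR hd s)
      (norm_Fw_le h3 hr hrR hb s)).tsum_eq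
  simp_rw [h2] at h1
  have h5 := Complex.hasSum_re h1
  rw [(lam_facts h3 h4 hr hrR hc hb c hK).2.2] at h5
  have e : (fun k => μ k * (∫ s in Dom, cell (ek k) r (Fw F p c s)).re) =
      fun k => (∫ s in Dom, (μ k : ℂ) * cell (ek k) r (Fw F p c s)).re := by
    ext k
    rw [integral_const_mul, Complex.re_ofReal_mul]
  rw [e]
  exact h5

theorem summable_G {F : ℝ → ℝ → ℂ → ℂ} {p R r K : ℝ} (h3 : 3 < p) (h4 : p < 4) (hr : 1 < r)
    (hrR : r < R)
    (hb : ∀ t ∈ Ioc (0 : ℝ) 1, ∀ σ : ℝ, 0 < σ → ∀ z : ℂ, ‖z‖ ≤ R →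
      ‖F t σ z‖ ≤ K * t ^ 2 * min (1 / σ ^ 2) (1 / σ ^ 3)) (c : ℝ) :
    Summable fun k => |(∫ s in Dom, cell (ek k) r (Fw F p c s)).re| := by
  have hgi := integrable_gw h3 h4 c K
  have h2 : Summable fun k : ℕ => (∫ s in Dom, gw p c K s) * (r⁻¹) ^ k := by
    have := (summable_geom (K := 1) hr).mul_left (∫ s in Dom, gw p c K s)
    simpa only [one_mul] using this
  apply Summable.of_nonneg_of_le (fun _ => abs_nonneg _) _ h2
  intro k
  refine (Complex.abs_re_le_norm _).trans ?_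
  rw [← integral_mul_const]
  apply norm_integral_le_of_norm_le (hgi.mul_const _)
  exact Eventually.of_forall fun s => norm_cell_ek_le hr k (norm_Fw_le h3 hr hrR hb s)

theorem exch {F : ℝ → ℝ → ℂ → ℂ} {p R r K : ℝ} (h3 : 3 < p) (h4 : p < 4) (hr : 1 < r)
    (hrR : r < R)
    (hd : ∀ t ∈ Ioc (0 : ℝ) 1, ∀ σ : ℝ, 0 < σ →
      DifferentiableOn ℂ (F t σ) (Metric.closedBall 0 R))
    (hc : ContinuousOn (fun x : ℝ × ℝ × ℂ => F x.1 x.2.1 x.2.2)
      (Ioc 0 1 ×ˢ Ioi 0 ×ˢ Metric.closedBall 0 R))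
    (hb : ∀ t ∈ Ioc (0 : ℝ) 1, ∀ σ : ℝ, 0 < σ → ∀ z : ℂ, ‖z‖ ≤ R →
      ‖F t σ z‖ ≤ K * t ^ 2 * min (1 / σ ^ 2) (1 / σ ^ 3))
    {m : ℕ → ℝ} {K' : ℝ} (hK : ∀ k, |m k| ≤ K') (hodd : ∀ k, ¬ Even k → m k = 0)
    {a : ℕ → ℝ} (ha : Summable fun k => |a k|) (c : ℝ) {Φ : ℝ → ℝ}
    (hΦ : ∀ x : ℝ, |x| ≤ 1 → Φ x = ∫ t in Ioo (0 : ℝ) 1, 2 * p / t *
      (c * ∫ σ in Ioi (0 : ℝ), σ ^ (p - 2) * (F t σ x).re))
    (hx : ∀ x : ℝ, |x| ≤ 1 → ∑' k : ℕ, a k * x ^ k = (Φ x + Φ (-x)) / 2) :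
    (∀ t ∈ Ioo (0 : ℝ) 1, IntegrableOn (fun σ : ℝ => σ ^ (p - 2) * (cell m r (F t σ)).re)
      (Ioi 0)) ∧
    IntegrableOn (fun t : ℝ => 2 * p / t * (c * ∫ σ in Ioi (0 : ℝ), σ ^ (p - 2) *
      (cell m r (F t σ)).re)) (Ioo 0 1) ∧
    ∑' k : ℕ, a k * m k = ∫ t in Ioo (0 : ℝ) 1, 2 * p / t *
      (c * ∫ σ in Ioi (0 : ℝ), σ ^ (p - 2) * (cell m r (F t σ)).re) := by
  classical
  have hr0 : 0 < r := by linarith
  refine ⟨?_, (lam_facts h3 h4 hr hrR hc hb c hK).2.1, ?_⟩
  · intro t ht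
    have ht' : t ∈ Ioc (0 : ℝ) 1 := ⟨ht.1, ht.2.le⟩
    apply slice_integrable (K := K * t ^ 2) h3 h4 hr hrR _ (hb t ht') hK
    have h2 : Continuous fun x : ℝ × ℂ => ((t, x.1, x.2) : ℝ × ℝ × ℂ) :=
      continuous_const.prodMk (continuous_fst.prodMk continuous_snd)
    exact hc.comp h2.continuousOn (fun x hx => ⟨ht', hx.1, hx.2⟩)
  · set G : ℕ → ℝ := fun k => (∫ s in Dom, cell (ek k) r (Fw F p c s)).re with hG
    have hGs : Summable fun k => |G k| := summable_G h3 h4 hr hrR hb c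
    -- the values of `Φ`
    have hval : ∀ x : ℝ, |x| ≤ 1 → HasSum (fun k => x ^ k * G k) (Φ x) := by
      intro x hx1
      have hxk : ∀ k : ℕ, |x ^ k| ≤ 1 := by
        intro k
        rw [abs_pow]
        exact pow_le_one₀ (abs_nonneg _) hx1
      have h5 := hasSum_Lam h3 h4 hr hrR hd hc hb c hxk
      have h6 : Lam F p r c (fun k => x ^ k) = Φ x := by
        rw [hΦ x hx1]
        unfold Lam
        refine setIntegral_congr_fun measurableSet_Ioo fun t ht => ?_
        have h7 : ∫ σ in Ioi (0 : ℝ), σ ^ (p - 2) * (cell (fun k => x ^ k) r (F t σ)).re =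
            ∫ σ in Ioi (0 : ℝ), σ ^ (p - 2) * (F t σ x).re := by
          refine setIntegral_congr_fun measurableSet_Ioi fun σ hσ => ?_
          show σ ^ (p - 2) * (cell (fun k => x ^ k) r (F t σ)).re = σ ^ (p - 2) * (F t σ x).re
          rw [cell_eval hr hrR (hd t ⟨ht.1, ht.2.le⟩ σ hσ) hx1]
        show 2 * p / t * (c * _) = 2 * p / t * (c * _)
        rw [h7]
      rw [h6] at h5
      exact h5
    -- the coefficients
    set G' : ℕ → ℝ := fun k => if Even k then G k else 0 with hG'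
    have hG's : Summable fun k => |G' k| := by
      apply Summable.of_nonneg_of_le (fun _ => abs_nonneg _) _ hGs
      intro k
      simp only [hG']
      split_ifs
      · exact le_refl _
      · rw [abs_zero]
        exact abs_nonneg _
    have hcoef : ∀ k, a k - G' k = 0 := by
      apply coeff_unique
      · exact Summable.of_nonneg_of_le (fun _ => abs_nonneg _) (fun k => abs_sub _ _) (ha.add hG's)
      · intro x hx1
        have hx1' : |-x| ≤ 1 := by rwa [abs_neg]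
        have hxk : ∀ k : ℕ, |x ^ k| ≤ 1 := by
          intro k
          rw [abs_pow]
          exact pow_le_one₀ (abs_nonneg _) hx1
        have h5 : HasSum (fun k => G' k * x ^ k) ((Φ x + Φ (-x)) / 2) := by
          have h6 := ((hval x hx1).add (hval (-x) hx1')).div_const 2
          have e : (fun k => G' k * x ^ k) = fun k => (x ^ k * G k + (-x) ^ k * G k) / 2 := by
            ext k
            simp only [hG']
            split_ifs with hk
            · rw [hk.neg_pow]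
              ring
            · rw [(Nat.not_even_iff_odd.1 hk).neg_pow]
              ring
          rw [e]
          exact h6
        have h7 : HasSum (fun k => a k * x ^ k) ((Φ x + Φ (-x)) / 2) := by
          rw [← hx x hx1]
          apply Summable.hasSum
          apply Summable.of_norm_bounded ha
          intro k
          rw [norm_mul, Real.norm_eq_abs, Real.norm_eq_abs]
          exact mul_le_of_le_one_right (abs_nonneg _) (hxk k)
        have h8 := h7.sub h5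
        rw [sub_self] at h8
        have e : (fun k => (a k - G' k) * x ^ k) = fun k => a k * x ^ k - G' k * x ^ k := by
          ext k
          ring
        rw [← h8.tsum_eq, e]
    have h9 := hasSum_Lam h3 h4 hr hrR hd hc hb c hK
    rw [show (∫ t in Ioo (0 : ℝ) 1, 2 * p / t *
      (c * ∫ σ in Ioi (0 : ℝ), σ ^ (p - 2) * (cell m r (F t σ)).re)) = Lam F p r c m from rfl,
      ← h9.tsum_eq]
    refine tsum_congr fun k => ?_
    have h10 : a k = G' k := by
      have := hcoef k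
      linarith
    rw [h10]
    simp only [hG']
    split_ifs with hk
    · ring
    · rw [hodd k hk]
      ring

end Pool.Agent.Lib_helper19.GC34
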